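import Pool.Agent.W600.QM.Alg
import Pool.Agent.W600.QM.Cantor

/-! A finitely generated non-amenable subgroup `H` of the mapping class group of the plane minus a
Cantor set such that every homogeneous quasimorphism on `H` is a homomorphism. -/

set_option autoImplicit false

open Pool.Agent.H659R3.BigMCG Pool.Agent.W600.QM

namespace Pool.Agent.Results.MP_ac6992_gt.NonamenableNoQM

/-- the four mapping classes -/
noncomputable def gens : Set (Map SC) := {toMapC Ph, toMapC Pf, toMapC Ps, toMapC Pt}

/-- the subgroup -/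
noncomputable def HH : Subgroup (Map SC) := Subgroup.closure gens

theorem mem_FF {φ : PP} (h : φ ∈ FF) : toMapC φ ∈ HH := by
  have h1 : FF ≤ HH.comap toMapC := by
    unfold FF
    rw [Subgroup.closure_le]
    rintro φ (rfl | rfl | rfl)
    · exact Subgroup.subset_closure (by simp [gens])
    · exact Subgroup.subset_closure (by simp [gens])
    · exact Subgroup.subset_closure (by simp [gens])
  exact h1 h

/-- the subgroup supported in the strip maps to `HH` -/
noncomputable def pp : FF →* HH where
  toFun := fun φ => ⟨toMapC φ, mem_FF φ.2⟩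
  map_one' := Subtype.ext (map_one toMapC)
  map_mul' := fun a b => Subtype.ext (map_mul toMapC (a : PP) (b : PP))

noncomputable def th : HH := ⟨toMapC Ph, Subgroup.subset_closure (by simp [gens])⟩

theorem gen_top : Subgroup.closure ((pp.range : Set HH) ∪ {th}) = ⊤ := by
  rw [eq_top_iff]
  have h := Subgroup.closure_closure_coe_preimage (k := gens)
  have h1 : ((fun x : HH => (x : Map SC)) ⁻¹' gens) ⊆ (pp.range : Set HH) ∪ {th} := by
    rintro ⟨x, hx⟩ hx'
    have hx'' : x = toMapC Ph ∨ x = toMapC Pf ∨ x = toMapC Ps ∨ x = toMapC Pt := by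
      simpa [gens] using hx'
    rcases hx'' with rfl | rfl | rfl | rfl
    · exact Or.inr rfl
    · exact Or.inl ⟨Ff, rfl⟩
    · exact Or.inl ⟨Fs, rfl⟩
    · exact Or.inl ⟨Ft, rfl⟩
  intro x _
  have hx : x ∈ Subgroup.closure ((fun x : HH => (x : Map SC)) ⁻¹' gens) := by
    have : Subgroup.closure ((fun x : HH => (x : Map SC)) ⁻¹' gens) = ⊤ := h
    rw [this]; trivial
  exact Subgroup.closure_mono h1 hx

theorem comm (n : ℕ) (hn : 0 < n) (a : HH) (ha : a ∈ pp.range) (b : HH) (hb : b ∈ pp.range) :
    Commute a (th ^ n * b * (th ^ n)⁻¹) := by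
  obtain ⟨φ, rfl⟩ := ha
  obtain ⟨ψ, rfl⟩ := hb
  have h := (FF_commute n hn φ ψ φ.2 ψ.2).map toMapC
  apply Subtype.ext
  have h2 := h.eq
  simp only [map_mul, map_inv, map_pow] at h2
  exact h2

/-- `SC` is the complement of the middle-thirds Cantor set on the real axis of the plane `ℂ`, with
the orientation of the plane; `Map SC` is its mapping class group. -/
theorem result : ∃ H : Subgroup (Map SC), H.FG ∧ ¬ IsAmenable H ∧ dimQTilde H = 0 := by
  refine ⟨HH, (Subgroup.fg_iff _).2 ⟨gens, rfl, by unfold gens; exact Set.toFinite _⟩, ?_, ?_⟩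
  · have h0 : (2 / 3 : ℝ) ∈ cantorSet := by
      have := K_two_third zero_mem_cantorSet
      norm_num at this
      exact this
    have h1 : ((2 / 3 : ℝ) : ℂ) ∈ strip := by
      constructor <;> rw [Complex.ofReal_re] <;> norm_num
    let ω : Om := ⟨((2 / 3 : ℝ) : ℂ), mem_CC.2 h0, h1⟩
    refine not_amenable pp ?_ ω sL sRL sRR disj1 disj2 cover_Om Ff Fs Ft act_f act_s act_t
    intro k hk z
    apply Subtype.ext
    have h1 : toMapC (k : PP) = 1 := congrArg Subtype.val hk
    exact fix_of_toMapC (k : PP) h1 z.2.1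
  · exact rank_QTilde pp.range th gen_top comm

end Pool.Agent.Results.MP_ac6992_gt.NonamenableNoQM
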